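import Pool.Agent.Helper78.LD8.Defs

/-! Project LD8, block TT8, part 1: the functions and the times. -/

set_option autoImplicit false

namespace Pool.Agent.Helper44.LD8

open Set MeasureTheory Filter Topology
open Pool.Agent.Helper78.LD8

variable {F : Pm} {K : ℕ} {ℓst a ℓ x : ℝ}

theorem Uf_meas (θ : ℝ) (c : ℕ → ℝ) (n : ℕ) : Measurable (Uf θ c n) := by
  unfold Uf
  fun_prop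

theorem Uf_cont (θ : ℝ) (c : ℕ → ℝ) (n : ℕ) : Continuous (Uf θ c n) := by
  unfold Uf
  fun_prop

theorem Uf_mono {θ : ℝ} (hθ : 0 ≤ θ) (c : ℕ → ℝ) (n : ℕ) {x y : ℝ} (hxy : x ≤ y) : Uf θ c n x ≤ Uf θ c n y := by
  unfold Uf
  have := mul_le_mul_of_nonneg_right hxy (pow_nonneg hθ n)
  linarith

theorem Uf_sub (θ : ℝ) (c : ℕ → ℝ) (n : ℕ) (x y : ℝ) : Uf θ c n y - Uf θ c n x = θ ^ n * (y - x) := by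
  unfold Uf
  ring

theorem Tt_spec {θ Θ : ℝ} (hθ : 1 < θ) (hℓ : 0 < ℓ) : Θ ≤ θ ^ (Tt θ Θ ℓ) * ℓ := by
  have hne : {n : ℕ | Θ ≤ θ ^ n * ℓ}.Nonempty := by
    obtain ⟨n, hn⟩ := pow_unbounded_of_one_lt (Θ / ℓ) hθ
    refine ⟨n, ?_⟩
    rw [div_lt_iff₀ hℓ] at hn
    exact hn.le
  exact Nat.sInf_mem hne

theorem lt_Tt {θ Θ : ℝ} {j : ℕ} (hj : j < Tt θ Θ ℓ) : θ ^ j * ℓ < Θ := by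
  by_contra! h
  exact Nat.notMem_of_lt_sInf hj h

theorem Tt_le {θ Θ : ℝ} {j : ℕ} (hj : Θ ≤ θ ^ j * ℓ) : Tt θ Θ ℓ ≤ j := Nat.sInf_le hj

theorem Tt_ge {θ Θ : ℝ} (hθ : 1 < θ) (hℓ : 0 < ℓ) {j : ℕ} (hj : Tt θ Θ ℓ ≤ j) : Θ ≤ θ ^ j * ℓ :=
  (Tt_spec hθ hℓ).trans (mul_le_mul_of_nonneg_right (pow_le_pow_right₀ hθ.le hj) hℓ.le)

theorem Tt_mono {θ Θ ℓ' : ℝ} (hθ : 1 < θ) (hℓ' : 0 < ℓ') (hle : ℓ' ≤ ℓ) (_hΘ : 0 ≤ Θ) : Tt θ Θ ℓ ≤ Tt θ Θ ℓ' :=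
  Tt_le ((Tt_spec hθ hℓ').trans (mul_le_mul_of_nonneg_left hle (by positivity)))

theorem Tt_block_le (hF : F.Ok) {Θ : ℝ} (hℓ : 0 < ℓ) (_hΘ : 0 ≤ Θ) (Λ : ℕ) : Tt F.θ Θ (ℓ / 2 ^ Λ) ≤ Tt F.θ Θ ℓ + F.X * Λ := by
  apply Tt_le
  have h1 : (2:ℝ) ^ Λ ≤ F.θ ^ (F.X * Λ) := by
    rw [pow_mul]
    exact pow_le_pow_left₀ (by norm_num) hF.hθX Λ
  have h2 := Tt_spec (Θ := Θ) hF.h1 hℓ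
  have h0 : 0 < F.θ := by linarith [hF.h1]
  rw [pow_add]
  calc Θ ≤ F.θ ^ Tt F.θ Θ ℓ * ℓ := h2
    _ = F.θ ^ Tt F.θ Θ ℓ * 2 ^ Λ * (ℓ / 2 ^ Λ) := by field_simp
    _ ≤ F.θ ^ Tt F.θ Θ ℓ * F.θ ^ (F.X * Λ) * (ℓ / 2 ^ Λ) := by gcongr

theorem Tt_block_ge (hF : F.Ok) {Θ : ℝ} (hℓ : 0 < ℓ) (hℓ1 : ℓ ≤ 1) (hΘ : 1 < Θ) {n Λ : ℕ} (hn : F.X * n ≤ Λ) :
    Tt F.θ Θ ℓ + n ≤ Tt F.θ Θ (ℓ / 2 ^ Λ) := by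
  have h0 : 0 < F.θ := by linarith [hF.h1]
  by_contra! h
  have h1 := Tt_spec (Θ := Θ) hF.h1 (show 0 < ℓ / 2 ^ Λ by positivity)
  -- the time is at least one
  have hpos : 1 ≤ Tt F.θ Θ ℓ := by
    by_contra! h2
    have h3 : Tt F.θ Θ ℓ = 0 := by omega
    have h4 := Tt_spec (Θ := Θ) hF.h1 hℓ
    rw [h3, pow_zero, one_mul] at h4
    linarith
  have h5 : Tt F.θ Θ (ℓ / 2 ^ Λ) ≤ (Tt F.θ Θ ℓ - 1) + n := by omega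
  have h6 : F.θ ^ (Tt F.θ Θ ℓ - 1) * ℓ < Θ := lt_Tt (by omega)
  have h7 : F.θ ^ n ≤ 2 ^ Λ := by
    calc F.θ ^ n ≤ (2 ^ F.X) ^ n := pow_le_pow_left₀ h0.le hF.hθ2 n
      _ = 2 ^ (F.X * n) := by rw [pow_mul]
      _ ≤ 2 ^ Λ := pow_le_pow_right₀ (by norm_num) hn
  have h8 : F.θ ^ Tt F.θ Θ (ℓ / 2 ^ Λ) * (ℓ / 2 ^ Λ) ≤ F.θ ^ (Tt F.θ Θ ℓ - 1) * ℓ := by
    calc F.θ ^ Tt F.θ Θ (ℓ / 2 ^ Λ) * (ℓ / 2 ^ Λ) ≤ F.θ ^ ((Tt F.θ Θ ℓ - 1) + n) * (ℓ / 2 ^ Λ) := by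
          gcongr
          exact hF.h1.le
      _ = F.θ ^ (Tt F.θ Θ ℓ - 1) * (F.θ ^ n * (ℓ / 2 ^ Λ)) := by rw [pow_add]; ring
      _ ≤ F.θ ^ (Tt F.θ Θ ℓ - 1) * (2 ^ Λ * (ℓ / 2 ^ Λ)) := by gcongr
      _ = F.θ ^ (Tt F.θ Θ ℓ - 1) * ℓ := by field_simp
  linarith

theorem T_start (F : Pm) (K : ℕ) (ℓst : ℝ) : F.T K ℓst ℓst = 0 := by
  unfold Pm.T Pm.n₀
  exact Nat.sub_self _

end Pool.Agent.Helper44.LD8
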