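import Pool.Agent.Helper44.LD8.TT8
import Pool.Agent.Helper41.LD4.Main

/-! Project LD8, block TT8, part 2: the times of a stage. -/

set_option autoImplicit false

namespace Pool.Agent.Helper44.LD8

open Set MeasureTheory Filter Topology
open Pool.Agent.Helper41.LD (Kk)
open Pool.Agent.Helper41.LD3 (ll ll_succ ll_pos)
open Pool.Agent.Helper41.LD4 (kp)
open Pool.Agent.Helper78.LD8

variable {F : Pm} {K : ℕ} {ℓst a ℓ x : ℝ}

/-- numbers -/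
theorem num44 (hF : F.Ok) (hK : F.Big K) : 1 ≤ K ∧ F.X + 4 ≤ K ∧ F.X * (3 * F.r K) ≤ F.b K ∧ 1 ≤ F.E K := by
  have hZ : F.Z ^ 4 ≤ K := hK
  have hX := hF.hX
  have h1 : 4000 * (F.X + 1) ≤ F.Z := by
    unfold Pm.Z
    have : 1000 * (F.X + 1) * 4 ≤ 1000 * (F.X + 1) * (F.d + 4) := Nat.mul_le_mul_left _ (by omega)
    linarith
  have hZ1 : 1 ≤ F.Z := by omega
  have h2 : F.Z ^ 2 ≤ K := (Nat.pow_le_pow_right hZ1 (by norm_num)).trans hZ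
  have hZK : F.Z ≤ K := by
    calc F.Z = F.Z ^ 1 := (pow_one _).symm
      _ ≤ F.Z ^ 2 := Nat.pow_le_pow_right hZ1 (by norm_num)
      _ ≤ K := h2
  have hK1 : 1 ≤ K := hZ1.trans hZK
  have hE1 : 1 ≤ F.E K := Nat.one_le_pow _ _ hK1
  refine ⟨hK1, by omega, ?_, hE1⟩
  have h3 : 15 * (F.X * F.X) ≤ K := by
    have h4 : F.Z * F.Z ≤ K := by rw [← pow_two]; exact h2
    have h5 : (4000 * (F.X + 1)) * (4000 * (F.X + 1)) ≤ F.Z * F.Z := Nat.mul_le_mul h1 h1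
    nlinarith
  have hb : F.b K = F.E K * F.E K * K := by
    unfold Pm.b Pm.E
    rw [pow_succ, two_mul, pow_add]
  rw [hb]
  unfold Pm.r
  calc F.X * (3 * (5 * F.X * F.E K)) = 15 * (F.X * F.X) * F.E K := by ring
    _ ≤ K * F.E K := Nat.mul_le_mul_right _ h3
    _ = 1 * F.E K * K := by ring
    _ ≤ F.E K * F.E K * K := Nat.mul_le_mul_right _ (Nat.mul_le_mul_right _ hE1)

theorem Th_gt (hF : F.Ok) (hK : F.Big K) : 1 < F.Th K := by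
  unfold Pm.Th
  exact one_lt_pow₀ (by norm_num) (by have := (num44 hF hK).2.2.2; omega)

theorem Th_ge_one (F : Pm) (K : ℕ) : 1 ≤ F.Th K := by
  unfold Pm.Th
  exact one_le_pow₀ (by norm_num)

/-- steps of one block -/
theorem T_blk (hF : F.Ok) (hK : F.Big K) (hℓ : 0 < ℓ) (hst : ℓ ≤ ℓst) (h1 : ℓst ≤ 1) :
    F.T K ℓst ℓ + 3 * F.r K ≤ F.T K ℓst (ℓ / 2 ^ F.b K) ∧ F.T K ℓst (ℓ / 2 ^ F.b K) ≤ F.T K ℓst ℓ + F.X * F.b K := by
  have hΘ := Th_gt hF hK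
  have hΘ0 : 0 ≤ F.Th K := by linarith
  have h2 : Tt F.θ (F.Th K) ℓst ≤ Tt F.θ (F.Th K) ℓ := Tt_mono hF.h1 hℓ hst hΘ0
  have h3 := Tt_block_le hF hℓ hΘ0 (F.b K)
  have h4 := Tt_block_ge hF hℓ (hst.trans h1) hΘ (n := 3 * F.r K) (Λ := F.b K) (num44 hF hK).2.2.1
  unfold Pm.T Pm.n₀
  omega

/-- fast from the time `T` on -/
theorem T_fast (hF : F.Ok) (hℓ : 0 < ℓ) {j : ℕ} (hj : F.T K ℓst ℓ ≤ j) : F.Th K ≤ F.V K ℓst j * ℓ := by
  unfold Pm.V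
  apply Tt_ge hF.h1 hℓ
  unfold Pm.T at hj
  omega

/-- slow before -/
theorem T_slow (_hF : F.Ok) (_hℓ : 0 < ℓ) (_hst : ℓ ≤ ℓst) {j : ℕ} (hj : j < F.T K ℓst ℓ) : F.V K ℓst j * ℓ < F.Th K := by
  unfold Pm.V
  apply lt_Tt
  unfold Pm.T at hj
  omega

theorem V_pos (hF : F.Ok) (K : ℕ) (ℓst : ℝ) (j : ℕ) : 0 < F.V K ℓst j := by
  unfold Pm.V
  have := hF.h1
  positivity

theorem V_mono (hF : F.Ok) {j n : ℕ} (hj : j ≤ n) : F.V K ℓst j ≤ F.V K ℓst n := by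
  unfold Pm.V
  exact pow_le_pow_right₀ hF.h1.le (by omega)

theorem V_steps (hF : F.Ok) (hK : F.Big K) (j : ℕ) {i : ℕ} (hi : i ≤ F.d + 1) : F.V K ℓst (j + i) ≤ 2 ^ F.e K / 8 * F.V K ℓst j := by
  have h0 : 0 < F.θ := by linarith [hF.h1]
  have e : F.V K ℓst (j + i) = F.θ ^ i * F.V K ℓst j := by
    unfold Pm.V
    rw [← add_assoc, pow_add _ (F.n₀ K ℓst + j) i]
    ring
  rw [e]
  refine mul_le_mul_of_nonneg_right ?_ (V_pos hF K ℓst j).le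
  rw [le_div_iff₀ (by norm_num)]
  calc F.θ ^ i * 8 ≤ F.θ ^ (F.d + 1) * 8 := by
        have := pow_le_pow_right₀ hF.h1.le hi
        linarith
    _ ≤ (2 ^ F.X) ^ (F.d + 1) * 8 := by
        have := pow_le_pow_left₀ h0.le hF.hθ2 (F.d + 1)
        linarith
    _ = 2 ^ (F.X * (F.d + 1) + 3) := by rw [← pow_mul, pow_add]; norm_num
    _ ≤ 2 ^ F.e K := by
        apply pow_le_pow_right₀ (by norm_num)
        obtain ⟨h1, h2, -, -⟩ := num44 hF hK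
        unfold Pm.e
        have h3 : F.X * (F.d + 1) ≤ K * (F.d + 1) := Nat.mul_le_mul_right _ (by omega)
        have h4 : (F.d + 4) * K = K * (F.d + 1) + 3 * K := by ring
        omega

lemma Kk_phase44 (K₀ : ℕ) {σ k : ℕ} (h1 : 2 ^ σ - 1 ≤ k) (h2 : k < 2 ^ (σ + 1) - 1) : Kk K₀ k = K₀ + σ := by
  unfold Kk
  have h3 : 1 ≤ 2 ^ σ := Nat.one_le_two_pow
  congr 1
  rw [Nat.log_eq_iff (Or.inr ⟨by norm_num, by omega⟩)]
  constructor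
  · omega
  · omega

/-- the number of the steps in a phase -/
theorem T_phase (hF : F.Ok) {ℓ₀ : ℝ} (hℓ₀ : 0 < ℓ₀) (K₀ : ℕ) {σ k : ℕ} (hKK : K = K₀ + σ) (hst : ℓst = ll F.a K₀ ℓ₀ (kp σ))
    (h1 : kp σ ≤ k) (h2 : k ≤ kp (σ + 1)) : F.T K ℓst (ll F.a K₀ ℓ₀ k) ≤ 2 ^ K * (F.X * F.b K) := by
  unfold kp at hst h1 h2
  have hΘ0 : 0 ≤ F.Th K := by linarith [Th_ge_one F K]
  have key : ∀ d, 2 ^ σ - 1 + d ≤ 2 ^ (σ + 1) - 1 → Tt F.θ (F.Th K) (ll F.a K₀ ℓ₀ (2 ^ σ - 1 + d)) ≤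
      Tt F.θ (F.Th K) ℓst + d * (F.X * F.b K) := by
    intro d
    induction d with
    | zero => intro _; simp [hst]
    | succ d ih =>
      intro hd
      have h3 := Tt_block_le hF (ll_pos (κ := F.a) hℓ₀ K₀ (2 ^ σ - 1 + d)) hΘ0 (F.b K)
      have e1 : ll F.a K₀ ℓ₀ (2 ^ σ - 1 + d + 1) = ll F.a K₀ ℓ₀ (2 ^ σ - 1 + d) / 2 ^ (F.b K) := by
        rw [ll_succ, Kk_phase44 K₀ (Nat.le_add_right _ _) (by omega), hKK]
        rfl
      rw [← e1] at h3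
      have h4 := ih (by omega)
      have h5 : (d + 1) * (F.X * F.b K) = d * (F.X * F.b K) + F.X * F.b K := by ring
      rw [h5, ← add_assoc (2 ^ σ - 1)]
      omega
  obtain ⟨d, rfl⟩ := Nat.exists_eq_add_of_le h1
  have h3 := key d h2
  have h4 : d ≤ 2 ^ K := by
    have h5 : d ≤ 2 ^ σ := by
      have h6 : 1 ≤ 2 ^ σ := Nat.one_le_two_pow
      rw [pow_succ] at h2
      omega
    exact h5.trans (Nat.pow_le_pow_right (by norm_num) (by omega))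
  have h6 := Nat.mul_le_mul_right (F.X * F.b K) h4
  unfold Pm.T Pm.n₀
  omega

/-- the times with the threshold 1 -/
theorem nu_T (hF : F.Ok) (hℓ : 0 < ℓ) : Tt F.θ 1 ℓ ≤ Tt F.θ (F.Th K) ℓ ∧ Tt F.θ (F.Th K) ℓ ≤ Tt F.θ 1 ℓ + F.X * (3 * F.E K) := by
  constructor
  · exact Tt_le ((Th_ge_one F K).trans (Tt_spec hF.h1 hℓ))
  · apply Tt_le
    have h1 := Tt_spec (Θ := 1) hF.h1 hℓ
    have h2 : (2:ℝ) ^ (3 * F.E K) ≤ F.θ ^ (F.X * (3 * F.E K)) := by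
      rw [pow_mul F.θ]
      exact pow_le_pow_left₀ (by norm_num) hF.hθX _
    have h0 : 0 < F.θ := by linarith [hF.h1]
    unfold Pm.Th
    rw [pow_add]
    calc (2:ℝ) ^ (3 * F.E K) = 1 * 2 ^ (3 * F.E K) := (one_mul _).symm
      _ ≤ (F.θ ^ Tt F.θ 1 ℓ * ℓ) * F.θ ^ (F.X * (3 * F.E K)) := mul_le_mul h1 h2 (by positivity) (by positivity)
      _ = F.θ ^ Tt F.θ 1 ℓ * F.θ ^ (F.X * (3 * F.E K)) * ℓ := by ring

end Pool.Agent.Helper44.LD8
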